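import Pool.Agent.Q216.HG.Pos

set_option autoImplicit false

namespace Pool.Agent.Results.MP_f93cde_pr.NoSiteChaos

open Pool.Agent.Q216.HG MeasureTheory ProbabilityTheory
open scoped ENNReal

/-- **Site disorder chaos fails for 3-uniform hypergraphs of polynomial (even linear) growth.**
There is a deterministic sequence of 3-uniform hypergraphs `E N` on `Fin N`, connected for `N ≥ 4`,
with balls of size at most `12 r` (hence of polynomial growth with `θ = 1`, and of exponential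
growth), such that for every positive inverse temperature `β ∈ (0,∞]` and every `t ≥ 0` the
second moment of the overlap stays bounded away from zero: for the discrete perturbation for every
odd measurable `ρ` that is not almost everywhere zero, and for the continuous perturbation for every
odd monotone `ρ ≠ 0`. -/
theorem result :
    ∃ E : ∀ N : ℕ, Finset (Finset (Fin N)),
      (∀ N, ∀ e ∈ E N, e.card = 3) ∧
      (∀ N, 4 ≤ N → ∀ v w : Fin N,
        Relation.ReflTransGen (fun u u' => ∃ e ∈ E N, u ∈ e ∧ u' ∈ e) v w) ∧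
      (∀ N, ∀ v : Fin N, ∀ r : ℕ, 1 ≤ r → (((ball (E N) r v).card : ℕ) : ℝ) ≤ 12 * (r : ℝ)) ∧
      (∀ N, ∀ v : Fin N, ∀ r : ℕ, (((ball (E N) r v).card : ℕ) : ℝ) ≤ 8 * (2 : ℝ) ^ r) ∧
      (∀ ρ : ℝ → ℝ, Measurable ρ → (∀ x, ρ (-x) = - ρ x) → ¬ (ρ =ᵐ[gaussianReal 0 1] 0) →
        ∀ β : ℝ≥0∞, β ≠ 0 → ∀ t : ℝ, 0 ≤ t → ∃ κ : ℝ, 0 < κ ∧ ∀ N, 4 ≤ N → κ ≤ ER2 (E N) ρ β t pd) ∧
      (∀ ρ : ℝ → ℝ, Monotone ρ → (∀ x, ρ (-x) = - ρ x) → (∃ x, ρ x ≠ 0) →
        ∀ β : ℝ≥0∞, β ≠ 0 → ∀ t : ℝ, 0 ≤ t →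
          ∃ κ : ℝ, 0 < κ ∧ ∀ N, 4 ≤ N → κ ≤ ER2 (E N) ρ β t (pc t)) := by
  refine ⟨EN, fun N e he => EN_card e he, fun N hN v w => connected hN v w, ?_, ?_, ?_, ?_⟩
  · intro N v r hr
    have h1 := ball_card r v
    have h2 : (ball (EN N) r v).card ≤ 12 * r := by omega
    exact_mod_cast h2
  · intro N v r
    have h1 := ball_card r v
    have h2 : 2 * r + 1 ≤ 2 * 2 ^ r := by
      have := Nat.lt_two_pow_self (n := r)
      omega
    have h3 : (ball (EN N) r v).card ≤ 8 * 2 ^ r := by omega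
    exact_mod_cast h3
  · intro ρ hρ _ hne β hβ t ht
    have hc := pos_disc hρ hne hβ ht
    exact ⟨_, by positivity, fun N hN => ER2_lower hρ pd_measurable ht _ hc.le rfl hN⟩
  · intro ρ hm ho hne β hβ t ht
    have hc := pos_cont hm ho hne hβ ht
    exact ⟨_, by positivity, fun N hN => ER2_lower hm.measurable (pc_measurable t) ht _ hc.le rfl hN⟩

end Pool.Agent.Results.MP_f93cde_pr.NoSiteChaos
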